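import Pool.Agent.P.MP_442888_an.Defs
import Pool.Agent.P.MP_442888_an.MixMain

set_option autoImplicit false

open MeasureTheory
open scoped ContDiff

namespace Pool.Agent.Results.MP_442888_an.DiophantineMixing

open Pool.Agent.P.MP_442888_an

/-- Every measurably non-trivial smooth time-change of a Heisenberg nilflow with Diophantine
frequencies is mixing. -/
theorem result (X : ℝ × ℝ × ℝ)
    (hX : ∃ c τ : ℝ, 0 < c ∧ ∀ k l : ℤ, (k, l) ≠ (0, 0) →
      c / (|(k : ℝ)| + |(l : ℝ)|) ^ τ ≤ |k * X.1 + l * X.2.1|)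
    (α : Nil → ℝ) (hs : ContDiff ℝ ∞ (α ∘ proj)) (hpos : ∀ p, 0 < α p)
    (hnt : ¬MeasurablyTrivial (nilflow X) haar α) :
    (∃ ψ, IsTimeChange (nilflow X) α ψ) ∧
      ∀ ψ, IsTimeChange (nilflow X) α ψ → Mixing ψ (timeChangeMeasure α haar) :=
  ⟨Mix.exists_timeChange (Mix.exists_sm hs).1 hpos,
    fun _ hψ => Mix.mixing_of_dio (Mix.dio_of hX) hs hpos hnt hψ⟩

end Pool.Agent.Results.MP_442888_an.DiophantineMixing
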