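import Pool.Agent.P.MP_442888_an.FreeDefs
import Pool.Agent.P.MP_442888_an.FreeErgodic
import Pool.Agent.P.MP_442888_an.FreeMain

set_option autoImplicit false

open MeasureTheory
open scoped ContDiff

namespace Pool.Agent.Results.MP_442888_an.NonToralNotWeaklyMixing

open Pool.Agent.P.MP_442888_an.Free

/-- On the free 2-step nilmanifold on three generators there are a completely irrational,
uniquely ergodic, parabolic nilflow and a smooth positive function `α` with average `1` on every fibre of the projection to
the torus, not measurably cohomologous to a constant nor to any function lifted from the torus,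
such that the flow generated by `X / α` exists and is neither weakly mixing nor mixing. -/
theorem result :
    ∃ (X : G) (α : Nil → ℝ),
      X.1 ≠ 0 ∧ LinearIndependent ℚ (Sum.elim X.1 X.2) ∧
      UniquelyErgodic (nilflow X) haar ∧
      ContDiff ℝ ∞ (α ∘ proj) ∧ (∀ p, 0 < α p) ∧
      (∀ p, ∫ z in cube, α (rmul (0, z) p) = 1) ∧
      ¬MeasurablyTrivial (nilflow X) haar α ∧
      ¬CohomologousToToral (nilflow X) haar α ∧
      (∃ ψ, IsTimeChange (nilflow X) α ψ) ∧
      ∀ ψ, IsTimeChange (nilflow X) α ψ →
        ¬WeaklyMixing ψ (timeChangeMeasure α haar) ∧ ¬Mixing ψ (timeChangeMeasure α haar) := by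
  obtain ⟨D⟩ := nonempty_data
  refine ⟨D.X, D.α, fun h => ?_, ?_, uniquelyErgodic_nilflow fun n hn => ?_, D.α_contDiff,
    fun p => by linarith [(D.α_bounds p).1], D.fibre_average, D.not_trivial, D.not_toral,
    exists_timeChange D.α_flow_continuous (by norm_num) fun p => (D.α_bounds p).1,
    fun ψ hψ => D.not_mixing hψ⟩
  · simpa [Data.X] using congrFun h 0
  · rw [← LinearIndependent.iff_fractionRing ℤ ℚ, Fintype.linearIndependent_iff]
    intro n hn
    by_contra hcon
    refine D.hind (fun i => n (.inl i), fun i => n (.inr i)) (fun h0 => hcon fun i => ?_) ?_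
    · rcases i with i | i
      · exact congrFun (congrArg Prod.fst h0) i
      · exact congrFun (congrArg Prod.snd h0) i
    · simpa [Data.X, Fin.sum_univ_three, add_assoc] using hn
  · simpa [Data.X] using D.hind (n, 0) fun h0 => hn (congrArg Prod.fst h0)

end Pool.Agent.Results.MP_442888_an.NonToralNotWeaklyMixing
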