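import Pool.Agent.P.MP_442888_an.Defs
import Pool.Agent.P.MP_442888_an.WkMain

set_option autoImplicit false

open MeasureTheory
open scoped ContDiff

namespace Pool.Agent.Results.MP_442888_an.NonToralWeakMixing

open Pool.Agent.P.MP_442888_an

/-- A smooth time-change of any uniquely ergodic Heisenberg nilflow is weakly mixing as soon as
the difference of `α` and its average along the central fibres is measurably non-trivial. -/
theorem result (X : ℝ × ℝ × ℝ) (hX : UniquelyErgodic (nilflow X) haar)
    (α : Nil → ℝ) (hs : ContDiff ℝ ∞ (α ∘ proj)) (hpos : ∀ p, 0 < α p)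
    (hnt : ¬MeasurablyTrivial (nilflow X) haar
      fun p => α p - ∫ z in (0 : ℝ)..1, α (rmul (0, 0, z) p)) :
    (∃ ψ, IsTimeChange (nilflow X) α ψ) ∧
      ∀ ψ, IsTimeChange (nilflow X) α ψ → WeaklyMixing ψ (timeChangeMeasure α haar) :=
  ⟨Mix.exists_timeChange (Mix.exists_sm hs).1 hpos,
    fun _ hψ => Mix.weaklyMixing_of_ue hX hs hpos hnt hψ⟩

end Pool.Agent.Results.MP_442888_an.NonToralWeakMixing
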