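import Pool.Agent.P.MP_442888_an.Defs
import Pool.Agent.P.MP_442888_an.Ergodic
import Pool.Agent.P.MP_442888_an.Main

set_option autoImplicit false

open MeasureTheory
open scoped ContDiff

namespace Pool.Agent.Results.MP_442888_an.NotWeaklyMixing

open Pool.Agent.P.MP_442888_an

/-- There are a uniquely ergodic parabolic Heisenberg nilflow (generator `X` not central) and a
smooth positive function `α` on the Heisenberg nilmanifold, not measurably cohomologous to a
constant, such that the flow generated by `X / α` exists and is neither weakly mixing nor mixing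
for the probability measure proportional to `α dμ`. -/
theorem result :
    ∃ (X : ℝ × ℝ × ℝ) (α : Nil → ℝ),
      (X.1 ≠ 0 ∨ X.2.1 ≠ 0) ∧
      UniquelyErgodic (nilflow X) haar ∧
      ContDiff ℝ ∞ (α ∘ proj) ∧ (∀ p, 0 < α p) ∧
      ¬MeasurablyTrivial (nilflow X) haar α ∧
      (∃ ψ, IsTimeChange (nilflow X) α ψ) ∧
      ∀ ψ, IsTimeChange (nilflow X) α ψ →
        ¬WeaklyMixing ψ (timeChangeMeasure α haar) ∧ ¬Mixing ψ (timeChangeMeasure α haar) := by
  obtain ⟨D⟩ := nonempty_data
  exact ⟨(1, D.β, 0), D.α, Or.inl one_ne_zero, uniquelyErgodic_nilflow D.hβ, D.α_contDiff,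
    fun p => by linarith [(D.α_bounds p).1], D.not_trivial, D.exists_timeChange,
    fun ψ hψ => ⟨D.not_weaklyMixing hψ, D.not_mixing hψ⟩⟩

end Pool.Agent.Results.MP_442888_an.NotWeaklyMixing
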